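import Pool.Agent.Q122.QB.Final

set_option autoImplicit false

/-!
# Equal subdivision of quasi-banana graphs (MP_f3e214_co, Q1)

For every quasi-banana graph `G` and every integer `m ≥ 1` the graph `G^(m)`, in which every edge
of `G` is replaced by a path with `m` new internal vertices (that is, by a path with `m + 1`
edges), is gonality-tight, and every divisor on `G` that realises the second gonality of `G`
realises the second gonality of `G^(m)`. So the answer to the question is affirmative.
-/

namespace Pool.Agent.Results.MP_f3e214_co.EqualSubdivision

open Q122.Gon Q122.QB

theorem result (V E : Type) [Fintype V] [Fintype E] [DecidableEq V] [DecidableEq E]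
    (G : MGraph V E) (hG : QuasiBanana G) (m : ℕ) (_hm : 1 ≤ m) :
    Tight (G.subdiv (m + 1)) ∧
      ∀ D : V → ℤ, Realises G 2 D → Realises (G.subdiv (m + 1)) 2 (ext E (m + 1) D) :=
  main G hG (m + 1) (by omega)

end Pool.Agent.Results.MP_f3e214_co.EqualSubdivision
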